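import Pool.Agent.Helper648.SZ.Part

set_option autoImplicit false

namespace Pool.Agent.Helper648.SZ

open Set Topology Filter
open Pool.Agent.Helper739.CT (Ctm HasLog SpanZero ctm_union ctm_component clopen_nhd_component cutwire bump ctm_iInter_directed)
open Pool.Agent.Helper739.CG (Good)

namespace G3Aux

/-- simultaneous tubes -/
theorem tubes {K : Type*} [TopologicalSpace K] [CompactSpace K] [T2Space K] {n : ℕ}
    (E : Fin n → Set K) (hE : ∀ i, IsClosed (E i)) (C : Fin n → Fin n → Set (K × K))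
    (hC : ∀ i j, IsClosed (C i j)) (hEC : ∀ i j, ∀ a ∈ E i, ∀ b ∈ E j, (a, b) ∉ C i j) :
    ∃ N : Fin n → Set K, (∀ i, IsOpen (N i)) ∧ (∀ i, E i ⊆ N i) ∧
      ∀ i j, ∀ a ∈ N i, ∀ b ∈ N j, (a, b) ∉ C i j := by
  have h : ∀ i j, ∃ (u : Set K) (v : Set K), IsOpen u ∧ IsOpen v ∧ E i ⊆ u ∧ E j ⊆ v ∧
      u ×ˢ v ⊆ (C i j)ᶜ := fun i j =>
    generalized_tube_lemma (hE i).isCompact (hE j).isCompact (hC i j).isOpen_compl
      (by rintro ⟨a, b⟩ ⟨ha, hb⟩; exact hEC i j a ha b hb)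
  choose u v hu hv hEu hEv huv using h
  refine ⟨fun i => (⋂ j, u i j) ∩ ⋂ j, v j i, fun i => ?_, fun i => ?_, ?_⟩
  · exact (isOpen_iInter_of_finite fun j => hu i j).inter (isOpen_iInter_of_finite fun j => hv j i)
  · exact subset_inter (subset_iInter fun j => hEu i j) (subset_iInter fun j => hEv j i)
  · intro i j a ha b hb
    exact huv i j ⟨mem_iInter.1 ha.1 j, mem_iInter.1 hb.2 i⟩

theorem niceOn_empty {K Y : Type*} [TopologicalSpace K] (u : K → Y) (D : Set (K × K))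
    (Z : Set Y) : NiceOn u D Z ∅ ∅ := by
  refine ⟨isClosed_empty, ?_, ?_, ?_, ?_, ?_, ?_⟩
  · intro p hp; exact hp.elim
  · have : {p : K × K | u p.1 = u p.2 ∧ u p.1 ∈ (∅ : Set Y) ∧ p ∉ (∅ : Set (K × K))} = ∅ := by
      ext p; simp
    rw [this]; exact isClosed_empty
  · intro k hk; exact hk.elim
  · intro a b h; exact h.elim
  · intro a b c h; exact h.elim
  · intro a b _ h; exact h.elim

end G3Aux

open G3Aux

/-- TARGET 1 -/
theorem nice_nhd {K Y : Type*} [TopologicalSpace K] [CompactSpace K] [T2Space K]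
    [ConnectedSpace K] [TopologicalSpace Y] [CompactSpace Y] [T2Space Y] (hY : Good Y)
    (u : K → Y) (hu : Continuous u) {D : Set (K × K)} (hD : DisData u D) {O Z : Set Y}
    (hO : IsClosed O) (hO1 : ∃ k0, u k0 ∉ O) (hZ : IsClosed Z) {R0 : Set (K × K)}
    (hR0 : IsClosed R0) (hR0Z : ∀ a b, u a ∈ Z → u a = u b → ((a, b) ∈ R0 ↔ (a, b) ∉ D))
    {y : Y} (hy : y ∈ O) :
    ∃ (O1 : Set Y) (R : Set (K × K)), IsClosed O1 ∧ IsClosed (O \ O1) ∧ O1 ⊆ O ∧ y ∈ O1 ∧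
      NiceOn u D Z O1 R := by
  classical
  set C := connectedComponentIn O y with hCdef
  have hCc : Ctm C := ctm_component hO.isCompact hy
  have hCO : C ⊆ O := connectedComponentIn_subset _ _
  obtain ⟨k0, hk0⟩ := hO1
  obtain ⟨n, E, hE, hEd, hEU, hEC, hED⟩ := finite_partition hY u hu hD hCc
    ⟨k0, fun h => hk0 (hCO h)⟩
  have hEq : IsClosed {p : K × K | u p.1 = u p.2} :=
    isClosed_eq (hu.comp continuous_fst) (hu.comp continuous_snd)
  set R0' : Set (K × K) := R0 ∩ {p | u p.1 = u p.2} ∩ {p | u p.1 ∈ Z} with hR0'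
  have hR0'c : IsClosed R0' := (hR0.inter hEq).inter (hZ.preimage (hu.comp continuous_fst))
  obtain ⟨N, hN, hEN, hNC⟩ := tubes E hE (fun i j => if i = j then D else R0' ∪ diagonal K)
    (fun i j => by
      by_cases h : i = j
      · simp only [h, if_true]; exact hD.closed
      · simp only [h, if_false]; exact hR0'c.union isClosed_diagonal)
    (fun i j a ha b hb => by
      by_cases h : i = j
      · simp only [h, if_true]
        subst h
        exact hEC i a ha b hb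
      · simp only [h, if_false]
        rintro (h1 | h1)
        · exact (hR0Z a b h1.2 h1.1.2).1 h1.1.1 (hED i j h a ha b hb h1.1.2)
        · have : a = b := h1
          subst this
          exact disjoint_left.1 (hEd i j h) ha hb)
  have hND : ∀ i, ∀ a ∈ N i, ∀ b ∈ N i, (a, b) ∉ D := fun i a ha b hb => by
    have := hNC i i a ha b hb
    simpa using this
  have hNR : ∀ i j, i ≠ j → ∀ a ∈ N i, ∀ b ∈ N j, (a, b) ∉ R0' := fun i j h a ha b hb hR => by
    have := hNC i j a ha b hb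
    simp only [h, if_false] at this
    exact this (Or.inl hR)
  have hNd : ∀ i j a, a ∈ N i → a ∈ N j → i = j := fun i j a ha hb => by
    by_contra h
    have := hNC i j a ha a hb
    simp only [h, if_false] at this
    exact this (Or.inr rfl)
  set B : Set Y := u '' (⋃ i, N i)ᶜ with hB
  have hBc : IsClosed B :=
    ((isOpen_iUnion hN).isClosed_compl.isCompact.image hu).isClosed
  have hCB : C ∩ B = ∅ := by
    rw [eq_empty_iff_forall_notMem]
    rintro x ⟨hxC, k, hk, rfl⟩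
    have : k ∈ ⋃ i, E i := by rw [hEU]; exact hxC
    obtain ⟨i, hi⟩ := mem_iUnion.1 this
    exact hk (mem_iUnion.2 ⟨i, hEN i hi⟩)
  obtain ⟨P, Q, hP, hQ, hPQ, hPQd, hCP, hBQ⟩ := clopen_nhd_component hO.isCompact hy hBc hCB
  have hPO : P ⊆ O := hPQ ▸ subset_union_left
  have hdiff : O \ P = Q := by
    rw [← hPQ]
    ext x
    constructor
    · rintro ⟨h | h, h'⟩
      · exact absurd h h'
      · exact h
    · intro h
      exact ⟨Or.inr h, fun h' => disjoint_left.1 hPQd h' h⟩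
  have hcov : ∀ k, u k ∈ P → ∃ i, k ∈ N i := by
    intro k hk
    by_contra hcon
    have : u k ∈ Q := hBQ ⟨hPO hk, k, fun h => hcon (mem_iUnion.1 h), rfl⟩
    exact disjoint_left.1 hPQd hk this
  have hF : ∀ i, IsClosed (u ⁻¹' P ∩ N i) := by
    intro i
    have : u ⁻¹' P ∩ N i = u ⁻¹' P ∩ ⋂ j : {j // j ≠ i}, (N j)ᶜ := by
      ext k
      constructor
      · rintro ⟨h1, h2⟩
        refine ⟨h1, mem_iInter.2 fun j h3 => j.2 (hNd _ _ k h3 h2)⟩
      · rintro ⟨h1, h2⟩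
        obtain ⟨j, hj⟩ := hcov k h1
        by_cases h : j = i
        · subst h; exact ⟨h1, hj⟩
        · exact absurd hj (mem_iInter.1 h2 ⟨j, h⟩)
    rw [this]
    exact (hP.isClosed.preimage hu).inter (isClosed_iInter fun j => (hN j).isClosed_compl)
  refine ⟨P, {p | u p.1 = u p.2 ∧ u p.1 ∈ P ∧ ∃ i, p.1 ∈ N i ∧ p.2 ∈ N i}, hP.isClosed,
    hdiff ▸ hQ.isClosed, hPO, hCP (mem_connectedComponentIn hy), ?_, ?_, ?_, ?_, ?_, ?_, ?_⟩
  · have : {p : K × K | u p.1 = u p.2 ∧ u p.1 ∈ P ∧ ∃ i, p.1 ∈ N i ∧ p.2 ∈ N i} =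
        ⋃ i, ({p : K × K | u p.1 = u p.2} ∩ (u ⁻¹' P ∩ N i) ×ˢ (u ⁻¹' P ∩ N i)) := by
      ext p
      rw [mem_iUnion]
      constructor
      · rintro ⟨h1, h2, i, h3, h4⟩
        refine ⟨i, h1, ⟨h2, h3⟩, ?_, h4⟩
        rw [mem_preimage, ← h1]; exact h2
      · rintro ⟨i, h1, ⟨h2, h3⟩, h4, h5⟩
        exact ⟨h1, h2, i, h3, h5⟩
    rw [this]
    exact isClosed_iUnion_of_finite fun i => hEq.inter ((hF i).prod (hF i))
  · rintro p ⟨h1, h2, i, h3, h4⟩
    exact ⟨h1, h2, hND i p.1 h3 p.2 h4⟩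
  · have : {p : K × K | u p.1 = u p.2 ∧ u p.1 ∈ P ∧
        p ∉ {p : K × K | u p.1 = u p.2 ∧ u p.1 ∈ P ∧ ∃ i, p.1 ∈ N i ∧ p.2 ∈ N i}} =
        ⋃ q : {q : Fin n × Fin n // q.1 ≠ q.2},
          ({p : K × K | u p.1 = u p.2} ∩ (u ⁻¹' P ∩ N q.1.1) ×ˢ (u ⁻¹' P ∩ N q.1.2)) := by
      ext p
      rw [mem_iUnion]
      constructor
      · rintro ⟨h1, h2, h3⟩
        obtain ⟨i, hi⟩ := hcov p.1 h2
        have h2' : u p.2 ∈ P := h1 ▸ h2
        obtain ⟨j, hj⟩ := hcov p.2 h2'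
        have hij : i ≠ j := by
          rintro rfl
          exact h3 ⟨h1, h2, i, hi, hj⟩
        exact ⟨⟨(i, j), hij⟩, h1, ⟨h2, hi⟩, h2', hj⟩
      · rintro ⟨⟨⟨i, j⟩, hij⟩, h1, ⟨h2, h3⟩, h4, h5⟩
        refine ⟨h1, h2, ?_⟩
        rintro ⟨-, -, l, h6, h7⟩
        exact hij ((hNd _ _ _ h3 h6).trans (hNd _ _ _ h7 h5))
    rw [this]
    exact isClosed_iUnion_of_finite fun q => hEq.inter ((hF q.1.1).prod (hF q.1.2))
  · intro k hk
    obtain ⟨i, hi⟩ := hcov k hk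
    exact ⟨rfl, hk, i, hi, hi⟩
  · rintro a b ⟨h1, h2, i, h3, h4⟩
    exact ⟨h1.symm, by simpa [← h1] using h2, i, h4, h3⟩
  · rintro a b c ⟨h1, h2, i, h3, h4⟩ ⟨h5, h6, j, h7, h8⟩
    have : i = j := hNd i j b h4 h7
    subst this
    exact ⟨h1.trans h5, h2, i, h3, h8⟩
  · intro a b h1 h2 h3 h4
    have hab : (a, b) ∈ R0' := ⟨⟨(hR0Z a b h3 h1).2 h4, h1⟩, h3⟩
    obtain ⟨i, hi⟩ := hcov a h2
    have h2' : u b ∈ P := h1 ▸ h2
    obtain ⟨j, hj⟩ := hcov b h2'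
    by_cases hij : i = j
    · subst hij
      exact ⟨h1, h2, i, hi, hj⟩
    · exact absurd hab (hNR i j hij a hi b hj)

/-- TARGET 2 -/
theorem nice_all {K Y : Type*} [TopologicalSpace K] [CompactSpace K] [T2Space K]
    [ConnectedSpace K] [TopologicalSpace Y] [CompactSpace Y] [T2Space Y] (hY : Good Y)
    (u : K → Y) (hu : Continuous u) {D : Set (K × K)} (hD : DisData u D) {O Z : Set Y}
    (hO : IsClosed O) (hO1 : ∃ k0, u k0 ∉ O) (hZ : IsClosed Z) {R0 : Set (K × K)}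
    (hR0 : IsClosed R0) (hR0Z : ∀ a b, u a ∈ Z → u a = u b → ((a, b) ∈ R0 ↔ (a, b) ∉ D)) :
    ∃ R : Set (K × K), NiceOn u D Z O R := by
  have key : ∃ (O1 : Set Y) (R : Set (K × K)), IsClosed O1 ∧ IsClosed (O \ O1) ∧ O1 ⊆ O ∧
      O ⊆ O1 ∧ NiceOn u D Z O1 R := by
    refine IsCompact.induction_on (s := O) (p := fun S => ∃ (O1 : Set Y) (R : Set (K × K)),
      IsClosed O1 ∧ IsClosed (O \ O1) ∧ O1 ⊆ O ∧ S ⊆ O1 ∧ NiceOn u D Z O1 R) hO.isCompact
      ?_ ?_ ?_ ?_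
    · exact ⟨∅, ∅, isClosed_empty, by simpa using hO, empty_subset _, empty_subset _,
        niceOn_empty u D Z⟩
    · rintro s t hst ⟨O1, R, h1, h2, h3, h4, h5⟩
      exact ⟨O1, R, h1, h2, h3, hst.trans h4, h5⟩
    · rintro s t ⟨O1, R, h1, h2, h3, h4, h5⟩ ⟨O2, R2, h1', h2', h3', h4', h5'⟩
      have e1 : O2 \ O1 = O2 ∩ (O \ O1) := by
        ext x
        constructor
        · rintro ⟨hx, hx'⟩; exact ⟨hx, h3' hx, hx'⟩
        · rintro ⟨hx, -, hx'⟩; exact ⟨hx, hx'⟩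
      have hcl : IsClosed (O2 \ O1) := by rw [e1]; exact h1'.inter h2
      refine ⟨O1 ∪ (O2 \ O1), R ∪ (R2 ∩ {p | u p.1 ∈ O2 \ O1}), h1.union hcl, ?_,
        union_subset h3 (fun x hx => h3' hx.1), ?_, ?_⟩
      · have e2 : O \ (O1 ∪ (O2 \ O1)) = (O \ O1) ∩ (O \ O2) := by
          ext x
          constructor
          · rintro ⟨hx, hx'⟩
            have hx1 : x ∉ O1 := fun h => hx' (Or.inl h)
            exact ⟨⟨hx, hx1⟩, hx, fun h => hx' (Or.inr ⟨h, hx1⟩)⟩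
          · rintro ⟨⟨hx, hx1⟩, -, hx2⟩
            refine ⟨hx, ?_⟩
            rintro (h | h)
            · exact hx1 h
            · exact hx2 h.1
        rw [e2]
        exact h2.inter h2'
      · rintro x (hx | hx)
        · exact Or.inl (h4 hx)
        · by_cases hx1 : x ∈ O1
          · exact Or.inl hx1
          · exact Or.inr ⟨h4' hx, hx1⟩
      · exact h5.union (h5'.mono hu hcl (fun x hx => hx.1)) disjoint_sdiff_right
    · intro y hy
      obtain ⟨O1, R, h1, h2, h3, h4, h5⟩ := nice_nhd hY u hu hD hO hO1 hZ hR0 hR0Z hy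
      refine ⟨O1, ?_, O1, R, h1, h2, h3, Subset.rfl, h5⟩
      rw [mem_nhdsWithin]
      refine ⟨(O \ O1)ᶜ, h2.isOpen_compl, fun h => h.2 h4, ?_⟩
      rintro x ⟨hx1, hx2⟩
      by_contra hcon
      exact hx1 ⟨hx2, hcon⟩
  obtain ⟨O1, R, -, -, h3, h4, h5⟩ := key
  have : O1 = O := Subset.antisymm h3 h4
  exact ⟨R, this ▸ h5⟩

end Pool.Agent.Helper648.SZ
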