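import Pool.Agent.Helper648.SZ.Part
import Pool.Agent.Helper648.SZ.Dis
import Pool.Agent.Helper648.SZ.RigidRel
import Pool.Agent.Helper648.SZ.GoodOpen
import Pool.Agent.Helper648.SZ.NiceAll

set_option autoImplicit false

namespace Pool.Agent.Helper648.SZ

open Set Topology Filter
open Pool.Agent.Helper739.CT (Ctm HasLog SpanZero ctm_union ctm_component clopen_nhd_component
  cutwire bump ctm_iInter_directed)
open Pool.Agent.Helper739.CG (Good)

theorem crux_min {Y K : Type}
    [TopologicalSpace Y] [CompactSpace Y] [T2Space Y] [TopologicalSpace K] [CompactSpace K]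
    [T2Space K] [ConnectedSpace K] (hYg : Good Y) (hYr : Rigid Y) (u : K → Y) (hu : Continuous u)
    {D : Set (K × K)} (hD : DisData u D) : D = ∅ := by
  obtain ⟨G, R0, hG, ⟨k0, hk0⟩, hR0, hR0G⟩ := exists_good_open u hu hD
  obtain ⟨t, ht, htc, htG⟩ := exists_mem_nhds_isClosed_subset (hG.mem_nhds hk0)
  set V : Set Y := interior t with hV
  have hVo : IsOpen V := isOpen_interior
  have hk0V : u k0 ∈ V := mem_interior_iff_mem_nhds.2 ht
  have hVG : V ⊆ t := interior_subset
  obtain ⟨R, hR⟩ := nice_all hYg u hu hD (O := Vᶜ) (Z := t) hVo.isClosed_compl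
    ⟨k0, fun h => h hk0V⟩ htc hR0 (fun a b ha hab => hR0G a b (htG ha) hab)
  set R1 : Set (K × K) := {p | u p.1 = u p.2 ∧ u p.1 ∈ t ∧ p ∈ R0} ∪ R with hR1
  have hfst : Continuous (fun p : K × K => u p.1) := hu.comp continuous_fst
  have hsnd : Continuous (fun p : K × K => u p.2) := hu.comp continuous_snd
  have hfc : IsClosed {p : K × K | u p.1 = u p.2} := isClosed_eq hfst hsnd
  have hR1c : IsClosed R1 := by
    refine IsClosed.union ?_ hR.closed
    exact hfc.inter ((htc.preimage hfst).inter hR0)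
  -- membership in R1
  have hmem : ∀ a b, u a = u b → u a ∈ t → ((a, b) ∈ R1 ↔ (a, b) ∉ D) := by
    intro a b hab ha
    constructor
    · rintro (⟨-, -, h⟩ | h)
      · exact (hR0G a b (htG ha) hab).1 h
      · exact (hR.fib _ h).2.2
    · intro h
      exact Or.inl ⟨hab, ha, (hR0G a b (htG ha) hab).2 h⟩
  have hmem2 : ∀ a b, u a = u b → u a ∉ V → ((a, b) ∈ R1 ↔ (a, b) ∈ R) := by
    intro a b hab ha
    constructor
    · rintro (⟨-, h1, h⟩ | h)
      · exact hR.agr a b hab ha h1 ((hR0G a b (htG h1) hab).1 h)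
      · exact h
    · intro h
      exact Or.inr h
  have hR1u : ∀ p ∈ R1, u p.1 = u p.2 := by
    rintro p (⟨h, -⟩ | h)
    · exact h
    · exact (hR.fib p h).1
  have key := rigid_relation hYr u hu R1 hR1c hR1u
    (by
      have : {p : K × K | u p.1 = u p.2 ∧ p ∉ R1} = ({p | u p.1 = u p.2 ∧ u p.1 ∈ t} ∩ D) ∪
          {p : K × K | u p.1 = u p.2 ∧ u p.1 ∈ Vᶜ ∧ p ∉ R} := by
        ext ⟨a, b⟩
        constructor
        · rintro ⟨h1, h2⟩
          by_cases hV : u a ∈ V
          · left
            refine ⟨⟨h1, hVG hV⟩, ?_⟩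
            by_contra h
            exact h2 ((hmem a b h1 (hVG hV)).2 h)
          · right
            exact ⟨h1, hV, fun h => h2 ((hmem2 a b h1 hV).2 h)⟩
        · rintro (⟨⟨h1, h2⟩, h3⟩ | ⟨h1, h2, h3⟩)
          · exact ⟨h1, fun h => (hmem a b h1 h2).1 h h3⟩
          · exact ⟨h1, fun h => h3 ((hmem2 a b h1 h2).1 h)⟩
      rw [this]
      exact ((hfc.inter (htc.preimage hfst)).inter hD.closed).union hR.co)
    (by
      intro k
      by_cases hV : u k ∈ V
      · exact (hmem k k rfl (hVG hV)).2 (hD.refl k)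
      · exact (hmem2 k k rfl hV).2 (hR.refl k hV))
    (by
      intro a b hab
      have h1 : u a = u b := hR1u _ hab
      by_cases hV : u a ∈ V
      · rw [hmem a b h1 (hVG hV)] at hab
        rw [hmem b a h1.symm (by rw [← h1]; exact hVG hV)]
        exact fun h => hab (hD.symm _ _ h)
      · rw [hmem2 a b h1 hV] at hab
        rw [hmem2 b a h1.symm (by rw [← h1]; exact hV)]
        exact hR.symm _ _ hab)
    (by
      intro a b c hab hbc
      have h1 : u a = u b := hR1u _ hab
      have h2 : u b = u c := hR1u _ hbc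
      by_cases hV : u a ∈ V
      · have hVb : u b ∈ V := by rw [← h1]; exact hV
        rw [hmem a b h1 (hVG hV)] at hab
        rw [hmem b c h2 (hVG hVb)] at hbc
        rw [hmem a c (h1.trans h2) (hVG hV)]
        exact hD.trans a b c h1 h2 hab hbc
      · have hVb : u b ∉ V := by rw [← h1]; exact hV
        rw [hmem2 a b h1 hV] at hab
        rw [hmem2 b c h2 hVb] at hbc
        rw [hmem2 a c (h1.trans h2) hV]
        exact hR.trans a b c hab hbc)
  rw [eq_empty_iff_forall_notMem]
  rintro ⟨a, b⟩ hab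
  have h1 : u a = u b := hD.fib _ hab
  have h2 := key a b h1
  by_cases hV : u a ∈ V
  · exact (hmem a b h1 (hVG hV)).1 h2 hab
  · exact (hR.fib _ ((hmem2 a b h1 hV).1 h2)).2.2 hab


/-- T8: crux -/
theorem crux {X Y K : Type} [TopologicalSpace X] [CompactSpace X] [T2Space X]
    [TopologicalSpace Y] [CompactSpace Y] [T2Space Y] [TopologicalSpace K] [CompactSpace K]
    [T2Space K] [ConnectedSpace K] (hYg : Good Y) (hYr : Rigid Y) (f : X → Y) (hf : Continuous f)
    (hfc : Confl f) (u : K → Y) (hu : Continuous u) (P P' : Set (K × X)) (hP : IsClosed P)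
    (hP' : IsClosed P') (hd : Disjoint P P') (hcov : ∀ k x, u k = f x ↔ (k, x) ∈ P ∨ (k, x) ∈ P')
    (k k' : K) (x : X) (hkx : (k, x) ∈ P) (hk : u k' = u k) : (k', x) ∈ P := by
  by_contra hcon
  have hx' : (k', x) ∈ P' := by
    have : u k' = f x := hk.trans ((hcov k x).2 (Or.inl hkx))
    exact ((hcov k' x).1 this).resolve_left hcon
  set D : Set (K × K) := {p | ∃ x, ((p.1, x) ∈ P ∧ (p.2, x) ∈ P') ∨
      ((p.1, x) ∈ P' ∧ (p.2, x) ∈ P)} with hD
  have hDc : IsClosed D := isClosed_dis P P' hP hP'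
  have hkD : (k, k') ∈ D := ⟨x, Or.inl ⟨hkx, hx'⟩⟩
  -- minimal
  obtain ⟨S, hS, hmin⟩ := zorn_superset_nonempty
    {S : Set K | Ctm S ∧ ((S ×ˢ S) ∩ D).Nonempty} (by
      intro c hc hchain hne
      have : Nonempty c := hne.to_subtype
      refine ⟨⋂ T : c, (T : Set K), ⟨?_, ?_⟩, fun s hs => iInter_subset_of_subset ⟨s, hs⟩ le_rfl⟩
      · apply ctm_iInter_directed
        · intro a b
          rcases hchain.total a.2 b.2 with h | h
          · exact ⟨a, le_rfl, h⟩
          · exact ⟨b, h, le_rfl⟩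
        · intro T
          exact (hc T.2).1
      · have hne2 : (⋂ T : c, (((T : Set K) ×ˢ (T : Set K)) ∩ D)).Nonempty := by
          apply IsCompact.nonempty_iInter_of_directed_nonempty_isCompact_isClosed
          · intro a b
            rcases hchain.total a.2 b.2 with h | h
            · exact ⟨a, le_rfl, inter_subset_inter_left _ (prod_mono h h)⟩
            · exact ⟨b, inter_subset_inter_left _ (prod_mono h h), le_rfl⟩
          · intro T
            exact (hc T.2).2
          · intro T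
            exact (((hc T.2).1.1).prod (hc T.2).1.1).inter_right hDc
          · intro T
            exact ((hc T.2).1.1.isClosed.prod (hc T.2).1.1.isClosed).inter hDc
        obtain ⟨p, hp⟩ := hne2
        rw [mem_iInter] at hp
        refine ⟨p, ⟨?_, ?_⟩, (hp (Classical.arbitrary c)).2⟩
        · exact mem_iInter.2 fun T => (hp T).1.1
        · exact mem_iInter.2 fun T => (hp T).1.2) univ
    ⟨⟨isCompact_univ, isConnected_univ⟩, (k, k'), ⟨mem_univ _, mem_univ _⟩, hkD⟩
  obtain ⟨⟨hSc, ⟨a, b⟩, ⟨haS, hbS⟩, hab⟩, hSmin⟩ := hmin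
  have : CompactSpace S := isCompact_iff_compactSpace.1 hSc.1
  have : ConnectedSpace S := isConnected_iff_connectedSpace.1 hSc.2
  have cv : Continuous (fun q : S × X => ((q.1 : K), q.2)) :=
    (continuous_subtype_val.comp continuous_fst).prodMk continuous_snd
  set Q : Set (S × X) := {q | ((q.1 : K), q.2) ∈ P} with hQ
  set Q' : Set (S × X) := {q | ((q.1 : K), q.2) ∈ P'} with hQ'
  have hdis := disData_of_confl hYg f hf hfc (fun s : S => u s) Q Q' (hP.preimage cv)
    (hP'.preimage cv) (by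
      rw [disjoint_left] at hd ⊢
      intro q h1 h2
      exact hd h1 h2) (fun s x => hcov s x)
    (D := {p | ∃ x, ((p.1, x) ∈ Q ∧ (p.2, x) ∈ Q') ∨ ((p.1, x) ∈ Q' ∧ (p.2, x) ∈ Q)}) rfl
    (by
      intro T hT hTu c hc d hd' hcd
      have h1 : Ctm ((↑) '' T : Set K) := ctm_image_val hT
      have h2 : ((↑) '' T : Set K) ⊆ S := by rintro _ ⟨y, -, rfl⟩; exact y.2
      have h3 : S ⊆ ((↑) '' T : Set K) := hSmin ⟨h1, ((c : K), (d : K)),
        ⟨⟨c, hc, rfl⟩, ⟨d, hd', rfl⟩⟩, hcd⟩ h2
      apply hTu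
      rw [eq_univ_iff_forall]
      intro y
      obtain ⟨z, hz, hzy⟩ := h3 y.2
      rwa [← Subtype.ext hzy])
  have hempty := crux_min hYg hYr (fun s : S => u s) (hu.comp continuous_subtype_val) hdis
  have : ((⟨a, haS⟩ : S), (⟨b, hbS⟩ : S)) ∈ (∅ : Set (S × S)) := by
    rw [← hempty]
    exact hab
  exact this

end Pool.Agent.Helper648.SZ
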