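import Pool.Agent.Helper648.SZ.Defs

set_option autoImplicit false

namespace Pool.Agent.Helper648.SZ

open Set Topology Filter
open Pool.Agent.Helper739.CT (Ctm HasLog SpanZero ctm_union ctm_component clopen_nhd_component cutwire bump ctm_iInter_directed const_of_int circle_exp_eq_one circle_exp_int log_unique)
open Pool.Agent.Helper739.CG (Good)

/-- (a) the off-diagonal part of the fibre square of a locally injective map is closed -/
theorem isClosed_off {K Y : Type*} [TopologicalSpace K] [CompactSpace K] [T2Space K]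
    [TopologicalSpace Y] [T2Space Y] (u : K → Y) (hu : Continuous u) (hl : LocInj u) :
    IsClosed (Off u) := by
  rw [← isOpen_compl_iff, isOpen_iff_mem_nhds]
  rintro ⟨k, k'⟩ hp
  by_cases h : u k = u k'
  · have hk : k = k' := by
      by_contra hne
      exact hp ⟨h, hne⟩
    subst hk
    obtain ⟨U, hU, hUi⟩ := hl k
    filter_upwards [prod_mem_nhds hU hU] with q hq hqo
    exact hqo.2 (hUi hq.1 hq.2 hqo.1)
  · have ho : IsOpen {q : K × K | u q.1 ≠ u q.2} :=
      isOpen_ne_fun (hu.comp continuous_fst) (hu.comp continuous_snd)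
    filter_upwards [ho.mem_nhds h] with q hq hqo
    exact hq hqo.1

/-- (b) the pair continuum -/
theorem pair_ctm {K Y : Type*} [TopologicalSpace K] [CompactSpace K] [T2Space K]
    [TopologicalSpace Y] [CompactSpace Y] [T2Space Y] (hY : Good Y) (u : K → Y)
    (hu : Continuous u) (hl : LocInj u) {A B : Set K} (hA : Ctm A) (hB : Ctm B)
    (hAi : InjOn u A) (hBi : InjOn u B) {a b : K} (ha : a ∈ A) (hb : b ∈ B) (hab : u a = u b)
    (hne : a ≠ b) :
    ∃ T : Set (K × K), Ctm T ∧ T ⊆ Off u ∧ (a, b) ∈ T ∧ u '' (Prod.fst '' T) = u '' A ∩ u '' B := by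
  have hI : Ctm (u '' A ∩ u '' B) :=
    Pool.Agent.Helper739.CG.ctm_inter hY (hA.image hu.continuousOn) (hB.image hu.continuousOn)
      ⟨u a, ⟨a, ha, rfl⟩, ⟨b, hb, hab.symm⟩⟩
  set T : Set (K × K) := (A ×ˢ B) ∩ {p | u p.1 = u p.2} with hT
  have hcl : IsClosed {p : K × K | u p.1 = u p.2} :=
    isClosed_eq (hu.comp continuous_fst) (hu.comp continuous_snd)
  have hTc : IsCompact T := (hA.1.prod hB.1).inter_right hcl
  have hq : Continuous (fun p : K × K => u p.1) := hu.comp continuous_fst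
  have hqT : (fun p : K × K => u p.1) '' T = u '' A ∩ u '' B := by
    apply Subset.antisymm
    · rintro _ ⟨p, ⟨⟨h1, h2⟩, h3⟩, rfl⟩
      exact ⟨⟨p.1, h1, rfl⟩, ⟨p.2, h2, h3.symm⟩⟩
    · rintro y ⟨⟨a', ha', rfl⟩, ⟨b', hb', h⟩⟩
      exact ⟨(a', b'), ⟨⟨ha', hb'⟩, h.symm⟩, rfl⟩
  have hinj : InjOn (fun p : K × K => u p.1) T := by
    rintro p ⟨⟨h1, h2⟩, h3⟩ p' ⟨⟨h1', h2'⟩, h3'⟩ h
    have e1 : p.1 = p'.1 := hAi h1 h1' h
    have e2 : p.2 = p'.2 := by
      apply hBi h2 h2'
      have g3 : u p.1 = u p.2 := h3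
      have g3' : u p'.1 = u p'.2 := h3'
      rw [← g3, ← g3']
      exact h
    exact Prod.ext e1 e2
  have habT : (a, b) ∈ T := ⟨⟨ha, hb⟩, hab⟩
  have hTp : IsPreconnected T := by
    rw [isPreconnected_closed_iff]
    intro t t' ht ht' hcov hn hn'
    have hIp := hI.2.isPreconnected
    rw [isPreconnected_closed_iff] at hIp
    have c1 : IsCompact ((fun p : K × K => u p.1) '' (T ∩ t)) :=
      (hTc.inter_right ht).image hq
    have c2 : IsCompact ((fun p : K × K => u p.1) '' (T ∩ t')) :=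
      (hTc.inter_right ht').image hq
    obtain ⟨y, hy, ⟨p, hp, hpy⟩, ⟨p', hp', hpy'⟩⟩ := hIp _ _ c1.isClosed c2.isClosed (by
        rw [← hqT]
        rintro _ ⟨p, hp, rfl⟩
        rcases hcov hp with h | h
        · exact Or.inl ⟨p, ⟨hp, h⟩, rfl⟩
        · exact Or.inr ⟨p, ⟨hp, h⟩, rfl⟩) (by
        obtain ⟨p, hp, hpt⟩ := hn
        exact ⟨u p.1, hqT ▸ ⟨p, hp, rfl⟩, ⟨p, ⟨hp, hpt⟩, rfl⟩⟩) (by
        obtain ⟨p, hp, hpt⟩ := hn'
        exact ⟨u p.1, hqT ▸ ⟨p, hp, rfl⟩, ⟨p, ⟨hp, hpt⟩, rfl⟩⟩)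
    have hpp : p = p' := hinj hp.1 hp'.1 (hpy.trans hpy'.symm)
    subst hpp
    exact ⟨p, hp.1, hp.2, hp'.2⟩
  have hTOff : T ⊆ Off u := by
    intro p hp
    by_contra hno
    have hd : p.1 = p.2 := by
      by_contra hne'
      exact hno ⟨hp.2, hne'⟩
    have hTp' := hTp
    rw [isPreconnected_closed_iff] at hTp'
    obtain ⟨r, hr, hr1, hr2⟩ := hTp' (Off u) {p : K × K | p.1 = p.2} (isClosed_off u hu hl)
      (isClosed_eq continuous_fst continuous_snd) (by
        intro r hr
        by_cases h : r.1 = r.2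
        · exact Or.inr h
        · exact Or.inl ⟨hr.2, h⟩) ⟨(a, b), habT, hab, hne⟩ ⟨p, hp, hd⟩
    exact hr1.2 hr2
  refine ⟨T, ⟨hTc, ⟨(a, b), habT⟩, hTp⟩, hTOff, habT, ?_⟩
  rw [image_image]
  exact hqT

/-- (c) the section argument: a continuous section forces injectivity -/
theorem injective_of_section {K Y : Type*} [TopologicalSpace K] [T2Space K] [ConnectedSpace K]
    [TopologicalSpace Y] (u : K → Y) (hu : Continuous u) (hl : LocInj u) (s : Y → K)
    (hs : Continuous s) (hus : ∀ y, u (s y) = y) : Function.Injective u := by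
  have hcl : IsClosed {k | s (u k) = k} := isClosed_eq (hs.comp hu) continuous_id
  have hop : IsOpen {k | s (u k) = k} := by
    rw [isOpen_iff_mem_nhds]
    intro k hk
    obtain ⟨U, hU, hUi⟩ := hl k
    have h1 : ContinuousAt (fun k => s (u k)) k := (hs.comp hu).continuousAt
    have h2 : (fun k => s (u k)) ⁻¹' U ∈ 𝓝 k := by
      apply h1
      have h3 : (fun k => s (u k)) k = k := hk
      rw [h3]
      exact hU
    filter_upwards [hU, h2] with k' hk' hk''
    exact hUi hk'' hk' (hus (u k'))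
  have hne : {k | s (u k) = k}.Nonempty := by
    obtain ⟨k0⟩ : Nonempty K := inferInstance
    refine ⟨s (u k0), ?_⟩
    change s (u (s (u k0))) = s (u k0)
    rw [hus]
  have hclop : IsClopen {k | s (u k) = k} := ⟨hcl, hop⟩
  have huniv := hclop.eq_univ hne
  intro k k' h
  have e1 : k ∈ {k | s (u k) = k} := huniv ▸ mem_univ k
  have e2 : k' ∈ {k | s (u k) = k} := huniv ▸ mem_univ k'
  have e1' : s (u k) = k := e1
  have e2' : s (u k') = k' := e2
  rw [← e1', ← e2', h]

theorem not_injOn_iff {K Y : Type*} (u : K → Y) (D : Set K) :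
    ¬ InjOn u D ↔ ((D ×ˢ D) ∩ Off u).Nonempty := by
  constructor
  · intro h
    rw [InjOn] at h
    push Not at h
    obtain ⟨a, ha, b, hb, hab, hne⟩ := h
    exact ⟨(a, b), ⟨ha, hb⟩, hab, hne⟩
  · rintro ⟨p, ⟨h1, h2⟩, h3, h4⟩ h
    exact h4 (h h1 h2 h3)

/-- (d) minimal noninjective subcontinuum -/
theorem exists_min_noninj {K Y : Type*} [TopologicalSpace K] [CompactSpace K] [T2Space K]
    [ConnectedSpace K] [TopologicalSpace Y] [T2Space Y] (u : K → Y)
    (hu : Continuous u) (hl : LocInj u) (hni : ¬ Function.Injective u) :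
    ∃ D : Set K, Ctm D ∧ ¬ InjOn u D ∧ ∀ D' ⊆ D, Ctm D' → D' ≠ D → InjOn u D' := by
  obtain ⟨m, hm, hmin⟩ := zorn_superset_nonempty
    {D : Set K | Ctm D ∧ ¬ InjOn u D} (by
      intro c hc hchain hne
      have : Nonempty c := hne.to_subtype
      have hdir : Directed (· ⊇ ·) (fun i : c => (i : Set K)) := by
        intro i j
        rcases hchain.total i.2 j.2 with h | h
        · exact ⟨i, Subset.rfl, h⟩
        · exact ⟨j, h, Subset.rfl⟩
      refine ⟨⋂ i : c, (i : Set K), ⟨ctm_iInter_directed hdir (fun i => (hc i.2).1), ?_⟩, ?_⟩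
      · rw [not_injOn_iff]
        have hne' : (⋂ i : c, (((i : Set K) ×ˢ (i : Set K)) ∩ Off u)).Nonempty := by
          apply IsCompact.nonempty_iInter_of_directed_nonempty_isCompact_isClosed
          · intro i j
            obtain ⟨k, hki, hkj⟩ := hdir i j
            exact ⟨k, inter_subset_inter_left _ (prod_mono hki hki),
              inter_subset_inter_left _ (prod_mono hkj hkj)⟩
          · intro i
            exact (not_injOn_iff u _).1 (hc i.2).2
          · intro i
            exact ((hc i.2).1.1.prod (hc i.2).1.1).inter_right (isClosed_off u hu hl)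
          · intro i
            exact ((hc i.2).1.1.isClosed.prod (hc i.2).1.1.isClosed).inter (isClosed_off u hu hl)
        obtain ⟨p, hp⟩ := hne'
        rw [mem_iInter] at hp
        refine ⟨p, ⟨mem_iInter.2 fun i => (hp i).1.1, mem_iInter.2 fun i => (hp i).1.2⟩, ?_⟩
        obtain ⟨i⟩ : Nonempty c := inferInstance
        exact (hp i).2
      · intro s hs
        exact iInter_subset (fun i : c => (i : Set K)) ⟨s, hs⟩) univ
      ⟨⟨isCompact_univ, isConnected_univ⟩, fun h => hni (injOn_univ.1 h)⟩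
  refine ⟨m, hmin.prop.1, hmin.prop.2, ?_⟩
  intro D' hD' hDc hne
  by_contra hno
  exact hne (Subset.antisymm hD' (hmin.2 ⟨hDc, hno⟩ hD'))

end Pool.Agent.Helper648.SZ
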