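import Pool.Agent.Helper648.SZ.D0

set_option autoImplicit false

namespace Pool.Agent.Helper648.SZ

open Set Topology Filter
open Pool.Agent.Helper739.CT (Ctm HasLog SpanZero ctm_union ctm_component clopen_nhd_component cutwire bump ctm_iInter_directed const_of_int circle_exp_eq_one circle_exp_int log_unique)
open Pool.Agent.Helper739.CG (Good)

/-- a component of a preimage reaches the boundary -/
theorem reach {K Y : Type*} [TopologicalSpace K] [CompactSpace K] [T2Space K]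
    [ConnectedSpace K] [TopologicalSpace Y] (u : K → Y) (hu : Continuous u)
    (hus : Function.Surjective u) {W : Set Y} (hW : IsOpen W) {b : Y} (hb : b ∉ closure W)
    {k : K} (hk : k ∈ u ⁻¹' (closure W)) :
    ∃ l ∈ connectedComponentIn (u ⁻¹' (closure W)) k, u l ∉ W := by
  set Φ : Set K := u ⁻¹' (closure W) with hΦ
  have hΦc : IsClosed Φ := isClosed_closure.preimage hu
  obtain ⟨x, hx⟩ := hus b
  have hxΦ : x ∉ Φ := by
    intro h
    apply hb
    rw [← hx]
    exact h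
  have huniv : Ctm (univ : Set K) := ⟨isCompact_univ, isConnected_univ⟩
  have h1 := bump huniv (O := Φᶜ) hΦc.isOpen_compl ⟨x, mem_univ x, hxΦ⟩ (z := k) (mem_univ k)
    (by simpa using hk)
  have h2 : (univ : Set K) \ Φᶜ = Φ := by
    ext z; simp
  rw [h2] at h1
  obtain ⟨l, hl, hl2⟩ := h1
  refine ⟨l, hl, fun hlW => ?_⟩
  have h3 : u ⁻¹' W ∈ 𝓝 l := (hW.preimage hu).mem_nhds hlW
  obtain ⟨z, hz1, hz2⟩ := mem_closure_iff_nhds.1 hl2 _ h3
  exact hz2 (subset_closure hz1)

/-- TARGET 1 -/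
theorem not_subset_of_decomp {K Y : Type*} [TopologicalSpace K] [CompactSpace K] [T2Space K]
    [ConnectedSpace K] [TopologicalSpace Y] [CompactSpace Y] [T2Space Y] [ConnectedSpace Y]
    (hY : Good Y) (u : K → Y) (hu : Continuous u) (hus : Function.Surjective u) (hl : LocInj u)
    (hcl : IsClosed (Off u)) (hprop : ∀ C : Set K, Ctm C → C ≠ univ → InjOn u C)
    {A B : Set Y} (hA : Ctm A) (hB : Ctm B) (hA1 : A ≠ univ) (hB1 : B ≠ univ)
    (hAB : A ∪ B = univ) {p : K × K} (hp : p ∈ Off u) :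
    ¬ (u '' (Prod.fst '' connectedComponentIn (Off u) p) ⊆ A) := by
  intro hV
  obtain ⟨k1, k2⟩ := p
  have hk12 : u k1 = u k2 := hp.1
  have hne : k1 ≠ k2 := hp.2
  have hpmem : (k1, k2) ∈ connectedComponentIn (Off u) (k1, k2) := mem_connectedComponentIn hp
  have hyA : u k1 ∈ A := hV ⟨k1, ⟨(k1, k2), hpmem, rfl⟩, rfl⟩
  obtain ⟨b, hb⟩ : ∃ b, b ∉ A := by
    by_contra h
    push Not at h
    exact hA1 (eq_univ_of_forall h)
  obtain ⟨t, ht, htc, htA⟩ := exists_mem_nhds_isClosed_subset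
    (hA.1.isClosed.isOpen_compl.mem_nhds hb)
  set W : Set Y := tᶜ with hW
  have hWo : IsOpen W := htc.isOpen_compl
  have hAW : A ⊆ W := fun a ha hat => htA hat ha
  have hbW : b ∉ closure W := by
    intro h
    obtain ⟨z, hz1, hz2⟩ := mem_closure_iff_nhds.1 h t ht
    exact hz2 hz1
  set Φ : Set K := u ⁻¹' (closure W) with hΦ
  have hΦc : IsCompact Φ := (isClosed_closure.preimage hu).isCompact
  have hk1 : k1 ∈ Φ := subset_closure (hAW hyA)
  have hk2 : k2 ∈ Φ := by
    change u k2 ∈ closure W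
    rw [← hk12]; exact subset_closure (hAW hyA)
  obtain ⟨x, hx⟩ := hus b
  have hxΦ : x ∉ Φ := by
    intro h
    apply hbW
    rw [← hx]
    exact h
  have key : ∀ k ∈ Φ, Ctm (connectedComponentIn Φ k) ∧ InjOn u (connectedComponentIn Φ k) := by
    intro k hk
    have h1 : Ctm (connectedComponentIn Φ k) := ctm_component hΦc hk
    refine ⟨h1, hprop _ h1 ?_⟩
    intro h
    apply hxΦ
    apply connectedComponentIn_subset Φ k
    rw [h]; exact mem_univ x
  obtain ⟨c1, i1⟩ := key k1 hk1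
  obtain ⟨c2, i2⟩ := key k2 hk2
  obtain ⟨l1, hl1, hl1W⟩ := reach u hu hus hWo hbW hk1
  obtain ⟨l2, hl2, hl2W⟩ := reach u hu hus hWo hbW hk2
  have m1 : k1 ∈ connectedComponentIn Φ k1 := mem_connectedComponentIn hk1
  have m2 : k2 ∈ connectedComponentIn Φ k2 := mem_connectedComponentIn hk2
  have d1 : Ctm (A ∪ u '' connectedComponentIn Φ k1) :=
    ctm_union hA (c1.image hu.continuousOn) ⟨u k1, hyA, ⟨k1, m1, rfl⟩⟩
  have d2 : Ctm (A ∪ u '' connectedComponentIn Φ k2) :=
    ctm_union hA (c2.image hu.continuousOn) ⟨u k1, hyA, ⟨k2, m2, hk12.symm⟩⟩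
  obtain ⟨z, hzA, hzB⟩ : (A ∩ B).Nonempty := by
    have := isPreconnected_closed_iff.1 (isPreconnected_univ (α := Y)) A B hA.1.isClosed
      hB.1.isClosed (by rw [hAB]) ⟨_, mem_univ _, hA.2.nonempty.choose_spec⟩
      ⟨_, mem_univ _, hB.2.nonempty.choose_spec⟩
    simpa using this
  have e1 : Ctm ((A ∪ u '' connectedComponentIn Φ k1) ∩ B) :=
    Pool.Agent.Helper739.CG.ctm_inter hY d1 hB ⟨z, Or.inl hzA, hzB⟩
  have e2 : Ctm ((A ∪ u '' connectedComponentIn Φ k2) ∩ B) :=
    Pool.Agent.Helper739.CG.ctm_inter hY d2 hB ⟨z, Or.inl hzA, hzB⟩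
  have hcomB : ∀ q, q ∉ A → q ∈ B := by
    intro q hq
    have : q ∈ A ∪ B := by rw [hAB]; exact mem_univ q
    exact this.resolve_left hq
  have hq : ∃ q, q ∈ u '' connectedComponentIn Φ k1 ∧ q ∈ u '' connectedComponentIn Φ k2 ∧ q ∉ A := by
    rcases hY.atri hA e1 e2 ⟨z, ⟨hzA, Or.inl hzA, hzB⟩, Or.inl hzA, hzB⟩ with h | h | h
    · exfalso
      apply hB1
      apply eq_univ_of_forall
      intro q
      by_cases hqA : q ∈ A
      · rcases h hqA with h' | h'
        · exact h'.2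
        · exact h'.2
      · exact hcomB q hqA
    · have hqA : u l1 ∉ A := fun h' => hl1W (hAW h')
      refine ⟨u l1, ⟨l1, hl1, rfl⟩, ?_, hqA⟩
      have h2 := h ⟨Or.inr ⟨l1, hl1, rfl⟩, hcomB _ hqA⟩
      rcases h2 with h2 | h2
      · exact absurd h2 hqA
      · exact h2.1.resolve_left hqA
    · have hqA : u l2 ∉ A := fun h' => hl2W (hAW h')
      refine ⟨u l2, ?_, ⟨l2, hl2, rfl⟩, hqA⟩
      have h2 := h ⟨Or.inr ⟨l2, hl2, rfl⟩, hcomB _ hqA⟩
      rcases h2 with h2 | h2
      · exact absurd h2 hqA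
      · exact h2.1.resolve_left hqA
  obtain ⟨q, hq1, hq2, hqA⟩ := hq
  obtain ⟨T, hT, hTO, hTp, hTe⟩ := pair_ctm hY u hu hl c1 c2 i1 i2 m1 m2 hk12 hne
  have hsub : T ⊆ connectedComponentIn (Off u) (k1, k2) :=
    hT.2.isPreconnected.subset_connectedComponentIn hTp hTO
  have hqT : q ∈ u '' (Prod.fst '' T) := by rw [hTe]; exact ⟨hq1, hq2⟩
  exact hqA (hV (image_mono (image_mono hsub) hqT))

/-- TARGET 2 -/
theorem indecomp_of_no_full {K Y : Type*} [TopologicalSpace K] [CompactSpace K] [T2Space K]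
    [ConnectedSpace K] [TopologicalSpace Y] [CompactSpace Y] [T2Space Y] [ConnectedSpace Y]
    (hY : Good Y) (u : K → Y) (hu : Continuous u) (hus : Function.Surjective u) (hl : LocInj u)
    (hcl : IsClosed (Off u)) (hprop : ∀ C : Set K, Ctm C → C ≠ univ → InjOn u C)
    (hnf : ∀ C ⊆ Off u, Ctm C → u '' (Prod.fst '' C) ≠ univ) (hne : (Off u).Nonempty)
    {A B : Set Y} (hA : Ctm A) (hB : Ctm B) (hAB : A ∪ B = univ) : A = univ ∨ B = univ := by
  by_contra hcon
  push Not at hcon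
  obtain ⟨hA1, hB1⟩ := hcon
  obtain ⟨p, hp⟩ := hne
  have hc : Ctm (connectedComponentIn (Off u) p) := ctm_component hcl.isCompact hp
  set V : Set Y := u '' (Prod.fst '' connectedComponentIn (Off u) p) with hVdef
  have hVc : Ctm V := (hc.image continuous_fst.continuousOn).image hu.continuousOn
  have hV1 : V ≠ univ := hnf _ (connectedComponentIn_subset _ _) hc
  have h1 : ¬ V ⊆ A := not_subset_of_decomp hY u hu hus hl hcl hprop hA hB hA1 hB1 hAB hp
  obtain ⟨v, hv, hvA⟩ := not_subset.1 h1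
  have hvB : v ∈ B := by
    have : v ∈ A ∪ B := by rw [hAB]; exact mem_univ v
    exact this.resolve_left hvA
  by_cases hVB : V ∪ B = univ
  · exact not_subset_of_decomp hY u hu hus hl hcl hprop hVc hB hV1 hB1 hVB hp Subset.rfl
  · have hVBc : Ctm (V ∪ B) := ctm_union hVc hB ⟨v, hv, hvB⟩
    have hun : (V ∪ B) ∪ A = univ := by
      rw [union_assoc, union_comm B A, hAB, union_univ]
    exact not_subset_of_decomp hY u hu hus hl hcl hprop hVBc hA hVB hA1 hun hp subset_union_left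

end Pool.Agent.Helper648.SZ
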