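import Pool.Agent.Helper648.SZ.F1

set_option autoImplicit false

namespace Pool.Agent.Helper648.SZ

open Set Topology Filter
open Pool.Agent.Helper739.CT (Ctm HasLog SpanZero ctm_union ctm_component clopen_nhd_component cutwire bump ctm_iInter_directed const_of_int circle_exp_eq_one circle_exp_int log_unique)
open Pool.Agent.Helper739.CG (Good)

/-- small closed neighbourhoods -/
theorem exists_free_nhd {L Y : Type*} [TopologicalSpace L] [CompactSpace L] [T2Space L]
    (w : L → Y) (hl : ∀ k : L, ∃ U ∈ 𝓝 k, InjOn w U) (γ : L → L) (hγ : Continuous γ) (m : ℕ)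
    (hfree : ∀ i, 0 < i → i < m → ∀ c, γ^[i] c ≠ c) (c : L) :
    ∃ V ∈ 𝓝 c, IsClosed V ∧ InjOn w V ∧ ∀ i, 0 < i → i < m → ∀ x ∈ V, γ^[i] x ∉ V := by
  obtain ⟨U, hU, hUi⟩ := hl c
  have h1 : ∀ i : ℕ, 0 < i → i < m → ∃ N ∈ 𝓝 c, ∀ x ∈ N, γ^[i] x ∉ N := by
    intro i hi him
    obtain ⟨A, B, hA, hB, hcA, hcB, hAB⟩ := t2_separation (hfree i hi him c)
    refine ⟨B ∩ γ^[i] ⁻¹' A, ?_, ?_⟩
    · exact Filter.inter_mem (hB.mem_nhds hcB) ((hγ.iterate i).continuousAt.preimage_mem_nhds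
        (hA.mem_nhds hcA))
    · rintro x ⟨-, hx2⟩ ⟨hx3, -⟩
      exact (Set.disjoint_left.1 hAB) hx2 hx3
  have h1' : ∀ i : ℕ, ∃ N ∈ 𝓝 c, (0 < i → i < m → ∀ x ∈ N, γ^[i] x ∉ N) := by
    intro i
    by_cases hi : 0 < i ∧ i < m
    · obtain ⟨N, hN, hN2⟩ := h1 i hi.1 hi.2
      exact ⟨N, hN, fun _ _ => hN2⟩
    · exact ⟨univ, Filter.univ_mem, fun h1 h2 => absurd ⟨h1, h2⟩ hi⟩
  choose N hN hN2 using h1'
  have h2 : U ∩ (⋂ i ∈ Finset.range m, N i) ∈ 𝓝 c :=
    Filter.inter_mem hU ((Filter.biInter_finset_mem _).2 fun i _ => hN i)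
  obtain ⟨V, hV, hVc, hVs⟩ := exists_mem_nhds_isClosed_subset h2
  refine ⟨V, hV, hVc, hUi.mono (fun x hx => (hVs hx).1), ?_⟩
  intro i hi him x hx hx2
  have e1 : x ∈ N i := by
    have := (hVs hx).2
    simp only [mem_iInter] at this
    exact this i (Finset.mem_range.2 him)
  have e2 : γ^[i] x ∈ N i := by
    have := (hVs hx2).2
    simp only [mem_iInter] at this
    exact this i (Finset.mem_range.2 him)
  exact hN2 i hi him x e1 e2

/-- transporting a function defined on a compact set where `w` is injective -/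
theorem transport {L Y : Type*} [TopologicalSpace L] [CompactSpace L] [T2Space L]
    [TopologicalSpace Y] [T2Space Y] (w : L → Y) (hw : Continuous w)
    {K : Set L} (hK : IsClosed K) (hi : InjOn w K) {h : L → Circle} (hh : ContinuousOn h K) :
    ∃ g : Y → Circle, ContinuousOn g (w '' K) ∧ ∀ c ∈ K, g (w c) = h c := by
  classical
  obtain ⟨g, hgd⟩ : ∃ g : Y → Circle, g = fun y : Y =>
      if hy : ∃ c ∈ K, w c = y then h hy.choose else 1 := ⟨_, rfl⟩
  have hg : ∀ c ∈ K, g (w c) = h c := by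
    intro c hc
    have hy : ∃ c' ∈ K, w c' = w c := ⟨c, hc, rfl⟩
    rw [hgd]
    simp only [dif_pos hy]
    have := hy.choose_spec
    rw [hi this.1 hc this.2]
  refine ⟨g, ?_, hg⟩
  rw [continuousOn_iff_isClosed]
  intro t ht
  refine ⟨w '' (K ∩ h ⁻¹' t), ?_, ?_⟩
  · exact ((hh.preimage_isClosed_of_isClosed hK ht).isCompact.image hw).isClosed
  · ext y
    constructor
    · rintro ⟨h1, ⟨c, hc, rfl⟩⟩
      refine ⟨⟨c, ⟨hc, ?_⟩, rfl⟩, ⟨c, hc, rfl⟩⟩
      have h2 : g (w c) ∈ t := h1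
      rw [hg c hc] at h2
      exact h2
    · rintro ⟨⟨c, ⟨hc, hct⟩, rfl⟩, -⟩
      refine ⟨?_, ⟨c, hc, rfl⟩⟩
      show g (w c) ∈ t
      rw [hg c hc]; exact hct

theorem continuousOn_range {L : Type*} [TopologicalSpace L] {f : L → Circle} {F : Set L}
    (hF : IsClosed F) (hf : ContinuousOn f F) (W : ℕ → Set L) (hW : ∀ k, IsClosed (W k)) (n : ℕ)
    (h : ∀ k, k < n → ContinuousOn f (W k)) :
    IsClosed (F ∪ {c | ∃ k, k < n ∧ c ∈ W k}) ∧
      ContinuousOn f (F ∪ {c | ∃ k, k < n ∧ c ∈ W k}) := by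
  induction n with
  | zero =>
    have : {c | ∃ k, k < 0 ∧ c ∈ W k} = (∅ : Set L) := by
      ext c; simp
    rw [this, union_empty]; exact ⟨hF, hf⟩
  | succ n ih =>
    obtain ⟨ih1, ih2⟩ := ih (fun k hk => h k (by omega))
    have : F ∪ {c | ∃ k, k < n + 1 ∧ c ∈ W k} = (F ∪ {c | ∃ k, k < n ∧ c ∈ W k}) ∪ W n := by
      ext c
      constructor
      · rintro (hc | ⟨k, hk, hc⟩)
        · exact Or.inl (Or.inl hc)
        · rcases Nat.lt_succ_iff_lt_or_eq.1 hk with hk | hk
          · exact Or.inl (Or.inr ⟨k, hk, hc⟩)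
          · subst hk; exact Or.inr hc
      · rintro ((hc | ⟨k, hk, hc⟩) | hc)
        · exact Or.inl hc
        · exact Or.inr ⟨k, by omega, hc⟩
        · exact Or.inr ⟨n, by omega, hc⟩
    rw [this]
    exact ⟨ih1.union (hW n), ih2.union_of_isClosed (h n (by omega)) ih1 (hW n)⟩

theorem equi_step {L Y : Type*} [TopologicalSpace L] [CompactSpace L] [T2Space L]
    [TopologicalSpace Y] [CompactSpace Y] [T2Space Y] (hY : Good Y) (w : L → Y)
    (hw : Continuous w) (γ : L → L) (hγ : Continuous γ) (m : ℕ) (hm : 2 ≤ m)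
    (hγm : ∀ c, γ^[m] c = c) (ζ : Circle) (hζ : ζ ^ m = 1)
    {V : Set L} (hV : IsClosed V) (hVi : InjOn w V)
    (hVf : ∀ i, 0 < i → i < m → ∀ x ∈ V, γ^[i] x ∉ V)
    {F : Set L} (hF : IsClosed F) (hFγ : ∀ c ∈ F, γ c ∈ F) {h : L → Circle}
    (hh : ContinuousOn h F) (hhγ : ∀ c ∈ F, h (γ c) = ζ * h c) :
    ∃ F' : Set L, IsClosed F' ∧ (∀ c ∈ F', γ c ∈ F') ∧ F ⊆ F' ∧ V ⊆ F' ∧
      ∃ h' : L → Circle, ContinuousOn h' F' ∧ ∀ c ∈ F', h' (γ c) = ζ * h' c := by
  classical
  obtain ⟨g, hg, hg2⟩ := transport w hw (hV.inter hF) (hVi.mono inter_subset_left)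
    (hh.mono inter_subset_right)
  obtain ⟨l, hlc, hl⟩ := log_closed hY
    (((hV.inter hF).isCompact.image hw).isClosed) hg
  have hl2 : ∀ c ∈ V, c ∈ F → Circle.exp (l (w c)) = h c := by
    intro c hc hc2
    rw [hl (w c) ⟨c, ⟨hc, hc2⟩, rfl⟩, hg2 c ⟨hc, hc2⟩]
  set E : ℕ → L → Circle := fun k c => ζ⁻¹ ^ k * Circle.exp (l (w (γ^[k] c))) with hE
  have hEc : ∀ k, Continuous (E k) := by
    intro k
    exact continuous_const.mul (Circle.exp.continuous.comp (hlc.comp (hw.comp (hγ.iterate k))))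
  have hiterF : ∀ k, ∀ c ∈ F, γ^[k] c ∈ F ∧ h (γ^[k] c) = ζ ^ k * h c := by
    intro k
    induction k with
    | zero => intro c hc; exact ⟨hc, by simp⟩
    | succ k ih =>
      intro c hc
      obtain ⟨i1, i2⟩ := ih c hc
      rw [Function.iterate_succ_apply']
      refine ⟨hFγ _ i1, ?_⟩
      rw [hhγ _ i1, i2, pow_succ']
      rw [mul_assoc]
  set W : ℕ → Set L := fun k => {c | γ^[k] c ∈ V} with hW
  have hWc : ∀ k, IsClosed (W k) := fun k => hV.preimage (hγ.iterate k)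
  have huniq : ∀ k k' c, k < m → k' < m → c ∈ W k → c ∈ W k' → k = k' := by
    intro k k' c hk hk' hc hc'
    by_contra hne
    rcases Nat.lt_or_gt_of_ne hne with hlt | hlt
    · apply hVf (k' - k) (by omega) (by omega) (γ^[k] c) hc
      rw [← Function.iterate_add_apply, Nat.sub_add_cancel hlt.le]
      exact hc'
    · apply hVf (k - k') (by omega) (by omega) (γ^[k'] c) hc'
      rw [← Function.iterate_add_apply, Nat.sub_add_cancel hlt.le]
      exact hc
  set h' : L → Circle := fun c => if c ∈ F then h c else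
    if hk : ∃ k, k < m ∧ c ∈ W k then E hk.choose c else 1 with hh'
  have ha : ∀ c ∈ F, h' c = h c := by
    intro c hc
    simp only [hh', if_pos hc]
  have hb : ∀ k, k < m → ∀ c ∈ W k, h' c = E k c := by
    intro k hk c hc
    by_cases hcF : c ∈ F
    · rw [ha c hcF]
      obtain ⟨i1, i2⟩ := hiterF k c hcF
      simp only [hE]
      rw [hl2 _ hc i1, i2, ← mul_assoc, ← mul_pow]
      simp
    · have hex : ∃ k, k < m ∧ c ∈ W k := ⟨k, hk, hc⟩
      simp only [hh', if_neg hcF, dif_pos hex]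
      have := hex.choose_spec
      rw [huniq _ _ c this.1 hk this.2 hc]
  have hcont := continuousOn_range (f := h') hF (hh.congr ha) W hWc m
    (fun k hk => (hEc k).continuousOn.congr (hb k hk))
  have hWγ : ∀ k c, k + 1 < m → c ∈ W (k + 1) → γ c ∈ W k := by
    intro k c _ hc
    show γ^[k] (γ c) ∈ V
    rw [← Function.iterate_succ_apply]; exact hc
  have hWγ0 : ∀ c, c ∈ W 0 → γ c ∈ W (m - 1) := by
    intro c hc
    show γ^[m - 1] (γ c) ∈ V
    rw [← Function.iterate_succ_apply, Nat.succ_eq_add_one, Nat.sub_add_cancel (by omega), hγm]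
    exact hc
  refine ⟨F ∪ {c | ∃ k, k < m ∧ c ∈ W k}, hcont.1, ?_, subset_union_left, ?_, h', hcont.2, ?_⟩
  · rintro c (hc | ⟨k, hk, hc⟩)
    · exact Or.inl (hFγ c hc)
    · right
      rcases k with _ | k
      · exact ⟨m - 1, by omega, hWγ0 c hc⟩
      · exact ⟨k, by omega, hWγ k c hk hc⟩
  · intro c hc
    exact Or.inr ⟨0, by omega, hc⟩
  · rintro c (hc | ⟨k, hk, hc⟩)
    · rw [ha c hc, ha _ (hFγ c hc), hhγ c hc]
    · rcases k with _ | k
      · rw [hb 0 hk c hc, hb (m - 1) (by omega) _ (hWγ0 c hc)]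
        simp only [hE]
        rw [← Function.iterate_succ_apply, Nat.succ_eq_add_one, Nat.sub_add_cancel (by omega), hγm]
        simp only [Function.iterate_zero, id_eq, pow_zero, one_mul]
        congr 1
        rw [inv_pow, inv_eq_iff_mul_eq_one, ← pow_succ, Nat.sub_add_cancel (by omega), hζ]
      · rw [hb (k + 1) hk c hc, hb k (by omega) _ (hWγ k c hk hc)]
        simp only [hE]
        rw [← Function.iterate_succ_apply, ← mul_assoc]
        congr 1
        rw [pow_succ', ← mul_assoc]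
        simp

/-- TARGET 1: equivariant circle map for a free cyclic action on a space locally injecting into a
Good space -/
theorem exists_equivariant {L Y : Type*} [TopologicalSpace L] [CompactSpace L] [T2Space L]
    [TopologicalSpace Y] [CompactSpace Y] [T2Space Y] (hY : Good Y) (w : L → Y)
    (hw : Continuous w) (hl : LocInj w) (γ : L → L) (hγ : Continuous γ) (m : ℕ) (hm : 2 ≤ m)
    (hγm : ∀ c, γ^[m] c = c) (hfree : ∀ i, 0 < i → i < m → ∀ c, γ^[i] c ≠ c) :
    ∃ h : L → Circle, Continuous h ∧ ∀ c, h (γ c) = Circle.exp (2 * Real.pi / m) * h c := by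
  classical
  have hζ : (Circle.exp (2 * Real.pi / m)) ^ m = 1 := by
    have hm0 : (m : ℝ) ≠ 0 := by positivity
    rw [← Circle.exp_natCast_mul]
    rw [mul_div_cancel₀ _ hm0]
    have := circle_exp_int 1
    rw [Int.cast_one, one_mul] at this
    exact this
  choose V hV hVc hVi hVf using exists_free_nhd w hl γ hγ m hfree
  have key : ∀ t : Finset L, ∃ F : Set L, IsClosed F ∧ (∀ c ∈ F, γ c ∈ F) ∧
      (∀ x ∈ t, V x ⊆ F) ∧ ∃ h : L → Circle, ContinuousOn h F ∧
      ∀ c ∈ F, h (γ c) = Circle.exp (2 * Real.pi / m) * h c := by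
    intro t
    induction t using Finset.induction_on with
    | empty => exact ⟨∅, isClosed_empty, by simp, by simp, fun _ => 1, by simp, by simp⟩
    | insert a t _ ih =>
      obtain ⟨F, hF, hFγ, hFt, h, hh, hhγ⟩ := ih
      obtain ⟨F', h1, h2, h3, h4, h', h5, h6⟩ := equi_step hY w hw γ hγ m hm hγm _ hζ
        (hVc a) (hVi a) (hVf a) hF hFγ hh hhγ
      refine ⟨F', h1, h2, ?_, h', h5, h6⟩
      intro x hx
      rcases Finset.mem_insert.1 hx with rfl | hx
      · exact h4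
      · exact (hFt x hx).trans h3
  obtain ⟨t, ht⟩ := CompactSpace.elim_nhds_subcover V hV
  obtain ⟨F, hF, hFγ, hFt, h, hh, hhγ⟩ := key t
  have hFu : F = univ := by
    rw [eq_univ_iff_forall]
    intro x
    have : x ∈ (⋃ x ∈ t, V x) := by rw [ht]; trivial
    simp only [mem_iUnion] at this
    obtain ⟨y, hy, hxy⟩ := this
    exact hFt y hy hxy
  subst hFu
  exact ⟨h, continuousOn_univ.1 hh, fun c => hhγ c (mem_univ c)⟩

/-- TARGET 2 -/
theorem no_free_of_log {L Y : Type*} [TopologicalSpace L] [CompactSpace L] [T2Space L]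
    [ConnectedSpace L] [TopologicalSpace Y] [CompactSpace Y] [T2Space Y] (hY : Good Y) (w : L → Y)
    (hw : Continuous w) (hl : LocInj w) (γ : L → L) (hγ : Continuous γ) (m : ℕ) (hm : 2 ≤ m)
    (hγm : ∀ c, γ^[m] c = c) (hfree : ∀ i, 0 < i → i < m → ∀ c, γ^[i] c ≠ c)
    (hlog : ∀ φ : L → Circle, Continuous φ → HasLog φ) : False := by
  obtain ⟨h, hh, hhγ⟩ := exists_equivariant hY w hw hl γ hγ m hm hγm hfree
  obtain ⟨η, hη, hη2⟩ := hlog h hh
  have h1 : ∀ c, ∃ n : ℤ, η (γ c) - η c - 2 * Real.pi / m = n * (2 * Real.pi) := by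
    intro c
    apply circle_exp_eq_one
    rw [Circle.exp_sub, Circle.exp_sub, hη2, hη2, hhγ]
    simp
  obtain ⟨c0⟩ : Nonempty L := inferInstance
  obtain ⟨n, hn⟩ := h1 c0
  have h2 : ∀ c, η (γ c) = η c + (2 * Real.pi / m + n * (2 * Real.pi)) := by
    intro c
    have := const_of_int (S := (univ : Set L)) isPreconnected_univ
      (f := fun c => η (γ c) - η c - 2 * Real.pi / m)
      (((hη.comp hγ).sub hη).sub continuous_const).continuousOn Real.two_pi_pos
      (fun x _ => h1 x) (mem_univ c) (mem_univ c0)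
    rw [hn] at this
    linarith
  have h3 : ∀ k : ℕ, η (γ^[k] c0) = η c0 + k * (2 * Real.pi / m + n * (2 * Real.pi)) := by
    intro k
    induction k with
    | zero => simp
    | succ k ih =>
      rw [Function.iterate_succ_apply', h2, ih]; push_cast; ring
  have h4 := h3 m
  rw [hγm] at h4
  have hm0 : (m : ℝ) ≠ 0 := by positivity
  have h5 : (2 * Real.pi) * (1 + m * n) = 0 := by
    have : (m : ℝ) * (2 * Real.pi / m + n * (2 * Real.pi)) = (2 * Real.pi) * (1 + m * n) := by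
      field_simp
    rw [← this]; linarith
  have h6 : (1 + m * n : ℝ) = 0 := by
    rcases mul_eq_zero.1 h5 with h | h
    · exact absurd h Real.two_pi_pos.ne'
    · exact h
  have h7 : (1 + m * n : ℤ) = 0 := by exact_mod_cast h6
  have h8 : (m : ℤ) ∣ 1 := ⟨-n, by linarith⟩
  have h9 : (m : ℤ) ≤ 1 := Int.le_of_dvd one_pos h8
  omega

end Pool.Agent.Helper648.SZ
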