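import Pool.Agent.Helper648.SZ.D1
import Pool.Agent.Helper648.SZ.D2
import Pool.Agent.Helper648.SZ.D3

set_option autoImplicit false

namespace Pool.Agent.Helper648.SZ

open Set Topology Filter
open Pool.Agent.Helper739.CT (Ctm HasLog SpanZero)
open Pool.Agent.Helper739.CG (Good)

/-- T4 -/
theorem inj_of_no_full {K Y : Type*} [TopologicalSpace K] [CompactSpace K] [T2Space K]
    [ConnectedSpace K] [TopologicalSpace Y] [CompactSpace Y] [T2Space Y] [ConnectedSpace Y]
    (hY : Good Y) (u : K → Y) (hu : Continuous u) (hus : Function.Surjective u) (hl : LocInj u)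
    (hprop : ∀ C : Set K, Ctm C → C ≠ univ → InjOn u C)
    (hnf : ∀ C ⊆ Off u, Ctm C → u '' (Prod.fst '' C) ≠ univ) : Function.Injective u := by
  by_contra hni
  have hcl : IsClosed (Off u) := isClosed_off u hu hl
  have hne : (Off u).Nonempty := by
    rw [Function.Injective] at hni
    push Not at hni
    obtain ⟨a, b, hab, hne⟩ := hni
    exact ⟨(a, b), hab, hne⟩
  have hind : ∀ A B : Set Y, Ctm A → Ctm B → A ∪ B = univ → A = univ ∨ B = univ :=
    fun A B hA hB hAB => indecomp_of_no_full hY u hu hus hl hcl hprop hnf hne hA hB hAB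
  exact hni (injective_of_fibre_le_two hY u hu hus hcl hprop hnf
    (fun k1 k2 k3 h12 h13 n12 n13 n23 =>
      fibre_le_two hY u hu hus hl hcl hprop hnf hind h12 h13 n12 n13 n23))

end Pool.Agent.Helper648.SZ
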