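import Pool.Agent.Helper648.SZ.Defs

set_option autoImplicit false

namespace Pool.Agent.Helper648.SZ

open Set Topology Filter
open Pool.Agent.Helper739.CT (Ctm HasLog SpanZero ctm_union ctm_component clopen_nhd_component cutwire bump ctm_iInter_directed const_of_int circle_exp_eq_one circle_exp_int log_unique)
open Pool.Agent.Helper739.CG (Good)

section NoFull

/-- the piece of `G` over the set `S` -/
noncomputable def pieceOver {Y X : Type*} (w : Y → X) (G : Y → Circle) (S : Set X) : Y → Circle := by
  classical exact fun p => if w p ∈ S then G p else 1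

theorem pieceOver_mem {Y X : Type*} {w : Y → X} {G : Y → Circle} {S : Set X} {p : Y}
    (h : w p ∈ S) : pieceOver w G S p = G p := by
  simp [pieceOver, h]

theorem pieceOver_notMem {Y X : Type*} {w : Y → X} {G : Y → Circle} {S : Set X} {p : Y}
    (h : w p ∉ S) : pieceOver w G S p = 1 := by
  simp [pieceOver, h]

theorem continuous_pieceOver {Y X : Type*} [TopologicalSpace Y] [TopologicalSpace X] {w : Y → X}
    (hw : Continuous w) {G : Y → Circle} (hG : Continuous G) {E A B : Set X}
    (hE : ∀ p, w p ∉ E → G p = 1) (hA : IsClosed A) (hB : IsClosed B) (hAB : Disjoint A B)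
    (hu : A ∪ B = E) : Continuous (pieceOver w G A) := by
  rw [continuous_iff_continuousAt]
  intro p
  by_cases hp : w p ∈ A
  · have hpB : w ⁻¹' Bᶜ ∈ 𝓝 p :=
      (hB.isOpen_compl.preimage hw).mem_nhds (disjoint_left.1 hAB hp)
    have : G =ᶠ[𝓝 p] pieceOver w G A := by
      filter_upwards [hpB] with q hq
      by_cases hqA : w q ∈ A
      · rw [pieceOver_mem hqA]
      · rw [pieceOver_notMem hqA]
        apply hE
        rw [← hu]
        rintro (h | h)
        · exact hqA h
        · exact hq h
    exact hG.continuousAt.congr this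
  · have hpA : w ⁻¹' Aᶜ ∈ 𝓝 p := (hA.isOpen_compl.preimage hw).mem_nhds hp
    have : (fun _ => (1 : Circle)) =ᶠ[𝓝 p] pieceOver w G A := by
      filter_upwards [hpA] with q hq
      rw [pieceOver_notMem hq]
    exact continuousAt_const.congr this

theorem pieceOver_union {Y X : Type*} {w : Y → X} {G : Y → Circle} {A B : Set X}
    (hAB : Disjoint A B) (p : Y) :
    pieceOver w G (A ∪ B) p = pieceOver w G A p * pieceOver w G B p := by
  by_cases hA : w p ∈ A
  · have hB : w p ∉ B := disjoint_left.1 hAB hA
    rw [pieceOver_mem (mem_union_left _ hA), pieceOver_mem hA, pieceOver_notMem hB, mul_one]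
  · by_cases hB : w p ∈ B
    · rw [pieceOver_mem (mem_union_right _ hB), pieceOver_mem hB, pieceOver_notMem hA, one_mul]
    · rw [pieceOver_notMem (by rintro (h | h); exacts [hA h, hB h]), pieceOver_notMem hA,
        pieceOver_notMem hB, one_mul]

end NoFull

theorem no_full {K X : Type*} [TopologicalSpace K] [CompactSpace K] [T2Space K] [ConnectedSpace K]
    [TopologicalSpace X] [CompactSpace X] [T2Space X] [ConnectedSpace X]
    (hX : ∀ Z : Set (X × X), Ctm Z → Prod.fst '' Z = univ → ∃ p ∈ Z, p.1 = p.2)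
    (u : K → X) (hu : Continuous u) (hus : Function.Surjective u) (hO : IsClosed (Off u)) :
    ∀ C ⊆ Off u, Ctm C → u '' (Prod.fst '' C) ≠ univ := by
  classical
  intro C hCO hC hfull
  set w : K × K → X × X := Prod.map u u with hw
  have hwc : Continuous w := hu.prodMap hu
  have hDcl : IsClosed {p : K × K | p.1 = p.2} := isClosed_eq continuous_fst continuous_snd
  have hdisj : Disjoint {p : K × K | p.1 = p.2} (Off u) := by
    rw [disjoint_left]
    intro p hp hp'
    exact hp'.2 hp
  obtain ⟨τ, hτ0, hτ1, -⟩ := exists_continuous_zero_one_of_isClosed hDcl hO hdisj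
  set E : Set (X × X) := w '' {p | 1 / 3 ≤ τ p ∧ τ p ≤ 2 / 3} with hEdef
  have hEc : IsCompact E := by
    refine IsCompact.image (IsClosed.isCompact ?_) hwc
    exact (isClosed_le continuous_const τ.continuous).inter
      (isClosed_le τ.continuous continuous_const)
  have hfib : ∀ p : K × K, u p.1 = u p.2 → τ p = 0 ∨ τ p = 1 := by
    intro p hp
    by_cases h : p.1 = p.2
    · exact Or.inl (hτ0 h)
    · exact Or.inr (hτ1 ⟨hp, h⟩)
  have hEd : ∀ q ∈ E, q.1 ≠ q.2 := by
    rintro q ⟨p, ⟨h1, h2⟩, rfl⟩ h
    rcases hfib p h with h0 | h0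
    · rw [h0] at h1
      norm_num at h1
    · rw [h0] at h2
      norm_num at h2
  set τ' : K × K → ℝ := fun p => max 0 (min 1 (3 * τ p - 1)) with hτ'
  have hτ'c : Continuous τ' := by
    have := τ.continuous
    fun_prop
  have hτ'0 : ∀ p : K × K, p.1 = p.2 → τ' p = 0 := by
    intro p hp
    have h0 : τ p = 0 := hτ0 hp
    simp only [hτ', h0]
    norm_num
  have hτ'1 : ∀ p ∈ Off u, τ' p = 1 := by
    intro p hp
    have h0 : τ p = 1 := hτ1 hp
    simp only [hτ', h0]
    norm_num
  set G : K × K → Circle := fun p => Circle.exp (2 * Real.pi * τ' p) with hG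
  have hGc : Continuous G := Circle.exp.continuous.comp (continuous_const.mul hτ'c)
  have hGE : ∀ p, w p ∉ E → G p = 1 := by
    intro p hp
    have h1 : ¬ (1 / 3 ≤ τ p ∧ τ p ≤ 2 / 3) := fun h => hp ⟨p, h, rfl⟩
    by_cases h2 : 1 / 3 ≤ τ p
    · have h3 : 2 / 3 < τ p := by
        by_contra h3
        exact h1 ⟨h2, not_lt.1 h3⟩
      have h4 : τ' p = 1 := by
        simp only [hτ']
        rw [min_eq_left (by linarith), max_eq_right zero_le_one]
      simp only [hG, h4, mul_one]
      simp
    · have h3 : τ' p = 0 := by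
        simp only [hτ']
        rw [max_eq_left]
        exact (min_le_right _ _).trans (by linarith [not_le.1 h2])
      simp only [hG, h3, mul_zero, Circle.exp_zero]
  -- nice sets
  set Nice : Set (X × X) → Prop := fun S => ∃ L : K × K → ℝ, Continuous L ∧
    (∀ p, Circle.exp (L p) = pieceOver w G S p) ∧ (∀ k, L (k, k) = 0) ∧ ∀ p ∈ C, L p = 0 with hNice
  have hSplitdef : ∀ W P Q : Set (X × X), Pool.Agent.Helper739.CT.Split W P Q ↔
      IsClosed P ∧ IsClosed Q ∧ P ∪ Q = W ∧ Disjoint P Q := fun _ _ _ => Iff.rfl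
  -- step (1)
  have step1 : ∀ A B, Pool.Agent.Helper739.CT.Split E A B → ∀ a : X, (∀ q ∈ A, q.1 ≠ a) →
      Nice A := by
    intro A B hAB a ha
    have hAE : A ⊆ E := hAB.left_subset
    have hcont : Continuous (pieceOver w G A) :=
      continuous_pieceOver hwc hGc hGE hAB.1 hAB.2.1 hAB.2.2.2 hAB.2.2.1
    have hslice : ∀ k, u k = a → ∀ t, pieceOver w G A (k, t) = 1 := by
      intro k hk t
      apply pieceOver_notMem
      intro hmem
      exact ha _ hmem hk
    have hdiag : ∀ p : K × K, u p.1 = u p.2 → pieceOver w G A p = 1 := by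
      intro p hp
      apply pieceOver_notMem
      intro hmem
      exact hEd _ (hAE hmem) hp
    obtain ⟨k0, hk0⟩ := hus a
    have h0 : HasLog (fun t => pieceOver w G A (k0, t)) := by
      have : (fun t => pieceOver w G A (k0, t)) = fun _ => (1 : Circle) :=
        funext (hslice k0 hk0)
      rw [this]
      exact Pool.Agent.Helper739.CT.hasLog_one
    obtain ⟨L, hL, hL', hL0⟩ := Pool.Agent.Helper739.CT.fam_log hcont
      (Pool.Agent.Helper739.CT.fam_all hcont h0) continuous_id (fun x => hdiag (x, x) rfl)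
    refine ⟨L, hL, hL', hL0, ?_⟩
    have hcst : ∀ p ∈ C, ∀ q ∈ C, L p = L q := by
      intro p hp q hq
      refine const_of_int hC.2.isPreconnected hL.continuousOn Real.two_pi_pos ?_ hp hq
      intro x hx
      apply circle_exp_eq_one
      rw [hL', hdiag x (hCO hx).1]
    have hmem : a ∈ u '' (Prod.fst '' C) := by
      rw [hfull]
      exact mem_univ a
    obtain ⟨_, ⟨⟨c, c'⟩, hcC, rfl⟩, hca⟩ := hmem
    have hcc : L (c, c') = L (c, c) := by
      refine const_of_int (isPreconnected_univ (α := K)) (f := fun t => L (c, t))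
        (hL.comp (continuous_const.prodMk continuous_id)).continuousOn Real.two_pi_pos ?_
        (mem_univ c') (mem_univ c)
      intro t _
      apply circle_exp_eq_one
      rw [hL', hslice c hca t]
    intro p hp
    rw [hcst p hp (c, c') hcC, hcc]
    exact hL0 c
  have key : ∃ P Q, Pool.Agent.Helper739.CT.Split E P Q ∧ E ⊆ P ∧
      ∀ A B, Pool.Agent.Helper739.CT.Split E A B → A ⊆ P → Nice A := by
    refine IsCompact.induction_on (s := E) (p := fun S => ∃ P Q,
      Pool.Agent.Helper739.CT.Split E P Q ∧ S ⊆ P ∧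
      ∀ A B, Pool.Agent.Helper739.CT.Split E A B → A ⊆ P → Nice A) hEc ?_ ?_ ?_ ?_
    · refine ⟨∅, E, ⟨isClosed_empty, hEc.isClosed, by simp, by simp⟩, Subset.rfl, ?_⟩
      intro A B hAB hA
      have : A = ∅ := subset_empty_iff.1 hA
      subst this
      refine ⟨fun _ => 0, continuous_const, fun p => ?_, fun _ => rfl, fun _ _ => rfl⟩
      rw [pieceOver_notMem (notMem_empty _), Circle.exp_zero]
    · rintro s t hst ⟨P, Q, h1, h2, h3⟩
      exact ⟨P, Q, h1, hst.trans h2, h3⟩
    · rintro s t ⟨P, Q, h1, h2, h3⟩ ⟨P', Q', h1', h2', h3'⟩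
      refine ⟨P ∪ P', Q ∩ Q', ⟨h1.1.union h1'.1, h1.2.1.inter h1'.2.1, ?_, ?_⟩,
        union_subset_union h2 h2', ?_⟩
      · apply Subset.antisymm
        · rintro x ((hx | hx) | ⟨hx, -⟩)
          · exact h1.left_subset hx
          · exact h1'.left_subset hx
          · exact h1.right_subset hx
        · intro x hx
          have e1 : x ∈ P ∪ Q := by rw [h1.2.2.1]; exact hx
          have e2 : x ∈ P' ∪ Q' := by rw [h1'.2.2.1]; exact hx
          rcases e1 with e1 | e1
          · left; left; exact e1
          · rcases e2 with e2 | e2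
            · left; right; exact e2
            · right; exact ⟨e1, e2⟩
      · rw [disjoint_left]
        rintro x (hx | hx) ⟨hq, hq'⟩
        · exact disjoint_left.1 h1.2.2.2 hx hq
        · exact disjoint_left.1 h1'.2.2.2 hx hq'
      · intro A B hAB hA
        obtain ⟨L1, a1, a2, a3, a4⟩ := h3 _ _ (h1.inter hAB) inter_subset_right
        obtain ⟨L2, b1, b2, b3, b4⟩ := h3' _ _ (h1.symm.inter hAB) (by
          rintro x ⟨hx, hxQ⟩
          rcases hA hx with h | h
          · exact absurd hxQ (disjoint_left.1 h1.2.2.2 h)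
          · exact h)
        refine ⟨fun p => L1 p + L2 p, a1.add b1, fun p => ?_, fun k => ?_, fun p hp => ?_⟩
        · rw [Circle.exp_add, a2, b2]
          have hA' : A = (A ∩ P) ∪ (A ∩ Q) := by
            rw [← inter_union_distrib_left, h1.2.2.1]
            exact (inter_eq_left.2 hAB.left_subset).symm
          conv_rhs => rw [hA']
          symm
          apply pieceOver_union
          exact (h1.2.2.2.mono inter_subset_right inter_subset_right)
        · show L1 (k, k) + L2 (k, k) = 0
          rw [a3, b3, add_zero]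
        · show L1 p + L2 p = 0
          rw [a4 p hp, b4 p hp, add_zero]
    · intro z hz
      have hCz := ctm_component hEc hz
      have hCE := connectedComponentIn_subset E z
      have hne : Prod.fst '' (connectedComponentIn E z) ≠ univ := by
        intro h
        obtain ⟨q, hq, hqd⟩ := hX _ hCz h
        exact hEd q (hCE hq) hqd
      obtain ⟨a, ha⟩ := (ne_univ_iff_exists_notMem _).1 hne
      have hdis : connectedComponentIn E z ∩ {q | q.1 = a} = ∅ := by
        rw [eq_empty_iff_forall_notMem]
        rintro q ⟨h1, h2⟩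
        exact ha ⟨q, h1, h2⟩
      have hcl : IsClosed {q : X × X | q.1 = a} := isClosed_eq continuous_fst continuous_const
      obtain ⟨P, Q, h1, h2, h3, h4, h5, h6⟩ := clopen_nhd_component hEc hz hcl hdis
      refine ⟨P, ?_, P, Q, ⟨h1.isClosed, h2.isClosed, h3, h4⟩, Subset.rfl, ?_⟩
      · have hQ : Qᶜ ∈ 𝓝 z := by
          apply h2.isClosed.isOpen_compl.mem_nhds
          intro hzQ
          exact disjoint_left.1 h4 (h5 (mem_connectedComponentIn hz)) hzQ
        rw [mem_nhdsWithin_iff_exists_mem_nhds_inter]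
        refine ⟨Qᶜ, hQ, ?_⟩
        rintro x ⟨hxQ, hx⟩
        rw [← h3] at hx
        exact hx.resolve_right hxQ
      · intro A B hAB hA
        refine step1 A B hAB a ?_
        intro q hq hqa
        exact disjoint_left.1 h4 (hA hq) (h6 ⟨hAB.left_subset hq, hqa⟩)
  obtain ⟨P, Q, hPQ, hP, hall⟩ := key
  obtain ⟨L, hL, hL', hL0, hLC⟩ := hall E ∅ ⟨hEc.isClosed, isClosed_empty, by simp, by simp⟩ hP
  have hGall : ∀ p, Circle.exp (L p) = G p := by
    intro p
    rw [hL']
    by_cases h : w p ∈ E
    · exact pieceOver_mem h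
    · rw [pieceOver_notMem h, hGE p h]
  obtain ⟨p, hp⟩ := hC.2.nonempty
  have hfin := log_unique (isPreconnected_univ (α := K × K)) (f := L)
    (g := fun p => 2 * Real.pi * τ' p) hL.continuousOn (continuous_const.mul hτ'c).continuousOn
    (fun x _ => hGall x) (mem_univ p) (mem_univ (p.1, p.1))
  rw [hLC p hp, hL0 p.1, hτ'1 p (hCO hp), hτ'0 (p.1, p.1) rfl] at hfin
  have := Real.pi_pos
  linarith

end Pool.Agent.Helper648.SZ
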