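import Pool.Agent.Helper648.SZ.Defs

set_option autoImplicit false

namespace Pool.Agent.Helper648.SZ

open Set Topology Filter
open Pool.Agent.Helper739.CT (Ctm HasLog SpanZero ctm_union ctm_component clopen_nhd_component cutwire bump ctm_iInter_directed const_of_int circle_exp_eq_one circle_exp_int log_unique)
open Pool.Agent.Helper739.CG (Good)

theorem log_transfer {M L : Type*} [TopologicalSpace M] [CompactSpace M] [T2Space M] [Nonempty M]
    [TopologicalSpace L] [CompactSpace L] [T2Space L] [ConnectedSpace L]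
    (g : M → L) (hg : Continuous g) (hgs : Function.Surjective g) (φ : L → Circle)
    (hφ : Continuous φ) (hM : HasLog (fun m => φ (g m)))
    (hprop : ∀ R : Set L, Ctm R → R ≠ univ →
      ∃ l : L → ℝ, ContinuousOn l R ∧ ∀ x ∈ R, Circle.exp (l x) = φ x)
    (hconf : ∀ R : Set L, Ctm R → R ≠ univ → ∀ m ∈ g ⁻¹' R,
      R ⊆ g '' connectedComponentIn (g ⁻¹' R) m) : HasLog φ := by
  classical
  obtain ⟨θ, hθ, hθe'⟩ := hM
  have hθe : ∀ m, Circle.exp (θ m) = φ (g m) := hθe'
  have hdiff : ∀ m m' : M, g m = g m' → ∃ n : ℤ, θ m - θ m' = n * (2 * Real.pi) := by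
    intro m m' h
    apply circle_exp_eq_one
    rw [Circle.exp_sub, hθe, hθe, h]
    simp
  let S : ℤ → Set (M × M) := fun k => {p | g p.1 = g p.2 ∧ θ p.1 - θ p.2 = k * (2 * Real.pi)}
  have hSc : ∀ k, IsClosed (S k) := by
    intro k
    have h1 : IsClosed {p : M × M | g p.1 = g p.2} :=
      isClosed_eq (hg.comp continuous_fst) (hg.comp continuous_snd)
    have h2 : IsClosed {p : M × M | θ p.1 - θ p.2 = k * (2 * Real.pi)} :=
      isClosed_eq ((hθ.comp continuous_fst).sub (hθ.comp continuous_snd)) continuous_const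
    exact h1.inter h2
  have hSk : ∀ k, IsCompact (S k) := fun k => (hSc k).isCompact
  -- the largest k
  obtain ⟨B, hB⟩ : ∃ B : ℝ, ∀ m, |θ m| ≤ B := by
    obtain ⟨B, hB⟩ := (isCompact_range hθ).isBounded.exists_norm_le
    exact ⟨B, fun m => hB _ ⟨m, rfl⟩⟩
  obtain ⟨k, hkne, hkmax⟩ := Int.exists_greatest_of_bdd (P := fun k => (S k).Nonempty)
    ⟨⌈2 * B⌉, by
      rintro z ⟨p, hp1, hp2⟩
      have h1 := abs_le.1 (hB p.1)
      have h2 := abs_le.1 (hB p.2)
      have h3 : (z : ℝ) * (2 * Real.pi) ≤ 2 * B := by rw [← hp2]; linarith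
      have hpi : (1 : ℝ) ≤ 2 * Real.pi := by
        have := Real.pi_gt_three
        linarith
      rcases le_or_gt z 0 with hz | hz
      · have : (0 : ℝ) ≤ 2 * B := by
          have := abs_nonneg (θ p.1)
          have := hB p.1
          linarith
        exact hz.trans (Int.ceil_nonneg this)
      · have hz' : (0 : ℝ) < z := by exact_mod_cast hz
        have : (z : ℝ) ≤ 2 * B := by nlinarith
        exact_mod_cast this.trans (Int.le_ceil _)⟩
    (by
      obtain ⟨m⟩ : Nonempty M := inferInstance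
      exact ⟨0, (m, m), rfl, by simp⟩)
  set Lk : Set L := g '' (Prod.fst '' S k) with hLk
  have hLkc : IsClosed Lk := (((hSk k).image continuous_fst).image hg).isClosed
  have hLkne : Lk.Nonempty := (hkne.image _).image _
  have claim : ∀ R : Set L, Ctm R → R ≠ univ → (R ∩ Lk).Nonempty → R ⊆ Lk := by
    rintro R hR hRu ⟨w0, hw0, _, ⟨⟨m, m'⟩, ⟨hp1, hp2⟩, rfl⟩, hgm⟩
    have hp1 : g m = g m' := hp1
    have hp2 : θ m - θ m' = k * (2 * Real.pi) := hp2
    have hgm : g m = w0 := hgm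
    obtain ⟨l, hl, hle⟩ := hprop R hR hRu
    have hm : m ∈ g ⁻¹' R := by rw [mem_preimage, hgm]; exact hw0
    have hm' : m' ∈ g ⁻¹' R := by rw [mem_preimage, ← hp1, hgm]; exact hw0
    have key : ∀ n, n ∈ g ⁻¹' R → ∀ a ∈ connectedComponentIn (g ⁻¹' R) n,
        θ a - l (g a) = θ n - l (g n) := by
      intro n hn a ha
      have hsub : connectedComponentIn (g ⁻¹' R) n ⊆ g ⁻¹' R := connectedComponentIn_subset _ _
      refine log_unique (S := connectedComponentIn (g ⁻¹' R) n) isPreconnected_connectedComponentIn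
        (f := θ) (g := fun a => l (g a)) hθ.continuousOn ?_ ?_ ha (mem_connectedComponentIn hn)
      · exact hl.comp hg.continuousOn (fun x hx => hsub hx)
      · intro x hx
        rw [hθe, hle _ (hsub hx)]
    intro r hr
    obtain ⟨a, ha, har⟩ := hconf R hR hRu m hm hr
    obtain ⟨a', ha', har'⟩ := hconf R hR hRu m' hm' hr
    refine ⟨a, ⟨(a, a'), ⟨?_, ?_⟩, rfl⟩, har⟩
    · show g a = g a'
      rw [har, har']
    · show θ a - θ a' = k * (2 * Real.pi)
      have h1 := key m hm a ha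
      have h2 := key m' hm' a' ha'
      rw [har] at h1
      rw [har', ← hp1] at h2
      linarith
  have hLu : Lk = univ := by
    by_contra hne
    obtain ⟨w, hw⟩ := (Set.ne_univ_iff_exists_notMem _).1 hne
    obtain ⟨O, hO, hwO, hdis⟩ := Pool.Agent.Helper739.CT.exists_open_closure_disjoint hLkc hw
    obtain ⟨z, hz⟩ := hLkne
    have hzO : z ∉ O := fun h => Set.disjoint_left.1 hdis (subset_closure h) hz
    have hzu : z ∈ (univ : Set L) \ O := ⟨mem_univ _, hzO⟩
    have hRc : Ctm (connectedComponentIn ((univ : Set L) \ O) z) :=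
      ctm_component (isCompact_univ.diff hO) hzu
    have hRu : connectedComponentIn ((univ : Set L) \ O) z ≠ univ := by
      intro h
      have : w ∈ connectedComponentIn ((univ : Set L) \ O) z := by rw [h]; trivial
      exact (connectedComponentIn_subset _ _ this).2 hwO
    have hRL := claim _ hRc hRu ⟨z, mem_connectedComponentIn hzu, hz⟩
    obtain ⟨y, hy1, hy2⟩ := bump (Z := (univ : Set L)) ⟨isCompact_univ, isConnected_univ⟩ hO
      ⟨w, mem_univ _, hwO⟩ (mem_univ z) hzO
    exact Set.disjoint_left.1 hdis hy2 (hRL hy1)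
  have hsv : ∀ m1 m1' m2 m2' : M, (m1, m1') ∈ S k → (m2, m2') ∈ S k → g m1 = g m2 →
      θ m1 = θ m2 := by
    rintro m1 m1' m2 m2' ⟨h1, h1'⟩ ⟨h2, h2'⟩ h
    have h1 : g m1 = g m1' := h1
    have h2 : g m2 = g m2' := h2
    have h1' : θ m1 - θ m1' = k * (2 * Real.pi) := h1'
    have h2' : θ m2 - θ m2' = k * (2 * Real.pi) := h2'
    have e1 : g m1 = g m2' := h.trans h2
    have e2 : g m2 = g m1' := h.symm.trans h1
    obtain ⟨j, hj⟩ := hdiff m1 m2' e1
    obtain ⟨j', hj'⟩ := hdiff m2 m1' e2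
    have b1 : j ≤ k := hkmax j ⟨(m1, m2'), e1, hj⟩
    have b2 : j' ≤ k := hkmax j' ⟨(m2, m1'), e2, hj'⟩
    have hpi : (0 : ℝ) < 2 * Real.pi := Real.two_pi_pos
    have b1' : (j : ℝ) ≤ k := by exact_mod_cast b1
    have b2' : (j' : ℝ) ≤ k := by exact_mod_cast b2
    have b3 : (j : ℝ) * (2 * Real.pi) ≤ k * (2 * Real.pi) := mul_le_mul_of_nonneg_right b1' hpi.le
    have b4 : (j' : ℝ) * (2 * Real.pi) ≤ k * (2 * Real.pi) := mul_le_mul_of_nonneg_right b2' hpi.le
    linarith
  have hch : ∀ w : L, ∃ p : M × M, p ∈ S k ∧ g p.1 = w := by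
    intro w
    have : w ∈ Lk := by rw [hLu]; trivial
    obtain ⟨_, ⟨p, hp, rfl⟩, hw⟩ := this
    exact ⟨p, hp, hw⟩
  choose P hPS hPg using hch
  have hval : ∀ p ∈ S k, θ p.1 = θ (P (g p.1)).1 := by
    intro p hp
    exact hsv p.1 p.2 (P (g p.1)).1 (P (g p.1)).2 hp (hPS _) (hPg _).symm
  refine ⟨fun w => θ (P w).1, ?_, fun w => ?_⟩
  · rw [continuous_iff_isClosed]
    intro C hC
    have : (fun w => θ (P w).1) ⁻¹' C = g '' (Prod.fst '' (S k ∩ {p | θ p.1 ∈ C})) := by
      ext w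
      constructor
      · intro hw
        exact ⟨(P w).1, ⟨P w, ⟨hPS w, hw⟩, rfl⟩, hPg w⟩
      · rintro ⟨_, ⟨p, ⟨hp, hpC⟩, rfl⟩, rfl⟩
        show θ (P (g p.1)).1 ∈ C
        rw [← hval p hp]
        exact hpC
    rw [this]
    have hcl : IsClosed {p : M × M | θ p.1 ∈ C} := hC.preimage (hθ.comp continuous_fst)
    exact ((((hSk k).inter_right hcl).image continuous_fst).image hg).isClosed
  · show Circle.exp (θ (P w).1) = φ w
    rw [hθe, hPg]

end Pool.Agent.Helper648.SZ
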